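import Mathlib

/-!
# Minimal and totally minimal topological groups: closed subgroups of `A × K`

All topological groups are Hausdorff. A Hausdorff topological group is minimal if it has no strictly
coarser Hausdorff group topology, and totally minimal if all its Hausdorff quotient groups are
minimal. We prove that a Hausdorff group with a continuous closed homomorphism with compact kernel
to a minimal abelian group is minimal, and draw the consequences for closed subgroups of
`A × K`, `A` abelian and (totally) minimal, `K` compact.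
-/

set_option autoImplicit false
set_option linter.style.haveILetI false

open Topology Filter Set

namespace Pool.Agent.J4.H93.MinGrp

universe u v w

/-- `G` is a minimal topological group: a Hausdorff topological group without strictly coarser
Hausdorff group topologies (`t ≤ s` means that `t` is finer than `s`). -/
structure IsMinimalGroup (G : Type u) [Group G] [t : TopologicalSpace G] : Prop where
  isTopologicalGroup : IsTopologicalGroup G
  t2 : T2Space G
  minimal : ∀ s : TopologicalSpace G, @IsTopologicalGroup G s _ → @T2Space G s → t ≤ s → s = t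

/-- `G` is a totally minimal topological group: a Hausdorff topological group all of whose quotients
by closed normal subgroups are minimal. -/
structure IsTotallyMinimalGroup (G : Type u) [Group G] [TopologicalSpace G] : Prop where
  isTopologicalGroup : IsTopologicalGroup G
  t2 : T2Space G
  minimal : ∀ (N : Subgroup G) [N.Normal], IsClosed (N : Set G) → IsMinimalGroup (G ⧸ N)

/-- Every closed subgroup of `G` is minimal. -/
def IsCMinimalGroup (G : Type u) [Group G] [TopologicalSpace G] : Prop :=
  ∀ H : Subgroup G, IsClosed (H : Set G) → IsMinimalGroup H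

/-- Every closed subgroup of `G` is totally minimal. -/
def IsCTotallyMinimalGroup (G : Type u) [Group G] [TopologicalSpace G] : Prop :=
  ∀ H : Subgroup G, IsClosed (H : Set G) → IsTotallyMinimalGroup H

/-- A continuous group isomorphism from a minimal group to a Hausdorff group is a homeomorphism. -/
theorem IsMinimalGroup.continuous_symm {G : Type u} {H : Type v} [Group G] [TopologicalSpace G]
    [Group H] [TopologicalSpace H] [IsTopologicalGroup H] [T2Space H] (hG : IsMinimalGroup G)
    (e : G ≃* H) (he : Continuous e) : Continuous e.symm := by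
  have h1 : @IsTopologicalGroup G (TopologicalSpace.induced e ‹_›) _ := topologicalGroup_induced e
  have h2 : @T2Space G (TopologicalSpace.induced e ‹_›) := by
    letI := TopologicalSpace.induced e ‹TopologicalSpace H›
    exact T2Space.of_injective_continuous e.injective continuous_induced_dom
  have h3 := hG.minimal _ h1 h2 (continuous_iff_le_induced.1 he)
  have h4 : IsInducing e := ⟨h3.symm⟩
  rw [h4.continuous_iff]
  have : (e : G → H) ∘ (e.symm : H → G) = id := by
    ext x; simp
  rw [this]
  exact continuous_id

/-- Criterion for minimality. -/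
theorem IsMinimalGroup.of_continuous_symm {G : Type u} [Group G] [TopologicalSpace G]
    [IsTopologicalGroup G] [T2Space G]
    (h : ∀ (H : Type u) [Group H] [TopologicalSpace H] [IsTopologicalGroup H] [T2Space H]
      (e : G ≃* H), Continuous e → Continuous e.symm) : IsMinimalGroup G := by
  refine ⟨inferInstance, inferInstance, ?_⟩
  intro s hs hs2 hts
  apply le_antisymm _ hts
  have := @h G _ s hs hs2 (MulEquiv.refl G) (continuous_id_iff_le.2 hts)
  exact continuous_id_iff_le.1 this

/-- A closed subgroup of a minimal abelian group is minimal. -/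
theorem closed_subgroup {A : Type u} [CommGroup A] [TopologicalSpace A] (hA : IsMinimalGroup A)
    (B : Subgroup A) (hB : IsClosed (B : Set A)) {C : Type v} [Group C] [TopologicalSpace C]
    [IsTopologicalGroup C] [T2Space C] (e : B ≃* C) (he : Continuous e) : Continuous e.symm := by
  haveI := hA.isTopologicalGroup
  haveI := hA.t2
  -- the homomorphism `A × C → A`
  let f : A × C →* A :=
    { toFun := fun p => p.1 * (e.symm p.2 : A)
      map_one' := by simp
      map_mul' := by
        intro p q
        simp only [Prod.fst_mul, Prod.snd_mul, map_mul, Subgroup.coe_mul]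
        exact mul_mul_mul_comm _ _ _ _ }
  have hf : ∀ p, f p = p.1 * (e.symm p.2 : A) := fun _ => rfl
  have hfs : Function.Surjective f := fun a => ⟨(a, 1), by rw [hf]; simp⟩
  -- its kernel is closed
  have hker : IsClosed (f.ker : Set (A × C)) := by
    have h1 : (f.ker : Set (A × C)) =
        (fun p : B × C => ((p.1 : A), p.2)) '' {p | e p.1 = p.2⁻¹} := by
      ext ⟨a, c⟩
      simp only [SetLike.mem_coe, MonoidHom.mem_ker, hf, mem_image, mem_ofPred_eq]
      constructor
      · intro h
        have ha : a = ((e.symm c)⁻¹ : B) := by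
          rw [Subgroup.coe_inv]
          exact eq_inv_of_mul_eq_one_left h
        refine ⟨((e.symm c)⁻¹, c), ?_, ?_⟩
        · simp
        · rw [← ha]
      · rintro ⟨⟨b, c'⟩, h1, h2⟩
        obtain ⟨rfl, rfl⟩ := Prod.mk.inj h2
        have h3 : e.symm c' = b⁻¹ := by
          rw [MulEquiv.symm_apply_eq, map_inv, h1, inv_inv]
        rw [h3]
        simp
    rw [h1]
    have hemb : IsClosedEmbedding (fun p : B × C => ((p.1 : A), p.2)) := by
      have := hB.isClosedEmbedding_subtypeVal.prodMap (IsClosedEmbedding.id (X := C))
      exact this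
    refine hemb.isClosedMap _ ?_
    exact isClosed_eq (he.comp continuous_fst) continuous_snd.inv
  haveI : IsClosed (f.ker : Set (A × C)) := hker
  haveI : T2Space ((A × C) ⧸ f.ker) := by
    haveI := QuotientGroup.instT3Space f.ker
    infer_instance
  let E : (A × C) ⧸ f.ker ≃* A := QuotientGroup.quotientKerEquivOfSurjective f hfs
  have hE : ∀ p : A × C, E (QuotientGroup.mk p) = f p := fun _ => rfl
  have hEs : Continuous E.symm := by
    have : (E.symm : A → (A × C) ⧸ f.ker) = fun a => QuotientGroup.mk (a, 1) := by
      ext a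
      rw [MulEquiv.symm_apply_eq, hE, hf]
      simp
    rw [this]
    exact QuotientGroup.continuous_mk.comp (by fun_prop)
  have hEc : Continuous E := by
    have := hA.continuous_symm E.symm hEs
    simpa using this
  rw [continuous_induced_rng]
  have : (Subtype.val ∘ (e.symm : C → B) : C → A) = fun c => E (QuotientGroup.mk (1, c)) := by
    ext c
    rw [hE, hf]
    simp
  rw [this]
  exact hEc.comp (QuotientGroup.continuous_mk.comp (by fun_prop))

/-- A Hausdorff group with a continuous closed homomorphism with compact kernel to a minimal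
abelian group is minimal. -/
theorem minimal_of_closed_hom {G : Type u} {A : Type v} [Group G] [TopologicalSpace G]
    [IsTopologicalGroup G] [T2Space G] [CommGroup A] [TopologicalSpace A] (hA : IsMinimalGroup A)
    (ψ : G →* A) (hψ : Continuous ψ) (hcl : IsClosedMap ψ) (hker : IsCompact (ψ.ker : Set G)) :
    IsMinimalGroup G := by
  haveI := hA.isTopologicalGroup
  haveI := hA.t2
  refine IsMinimalGroup.of_continuous_symm ?_
  intro H _ _ _ _ e he
  -- the range
  let B : Subgroup A := ψ.range
  have hB : IsClosed (B : Set A) := by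
    rw [MonoidHom.coe_range]
    exact hcl.isClosed_range
  let φ : G →* B := ψ.rangeRestrict
  have hφ : ∀ g, (φ g : A) = ψ g := fun _ => rfl
  have hφs : Function.Surjective φ := ψ.rangeRestrict_surjective
  have hφc : Continuous φ := by
    rw [continuous_induced_rng]
    exact hψ
  have hφcl : IsClosedMap φ := by
    intro s hs
    have : φ '' s = Subtype.val ⁻¹' (ψ '' s) := by
      ext b
      constructor
      · rintro ⟨g, hg, rfl⟩
        exact ⟨g, hg, rfl⟩
      · rintro ⟨g, hg, h⟩
        exact ⟨g, hg, Subtype.ext h⟩
    rw [this]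
    exact (hcl s hs).preimage continuous_subtype_val
  have hφq : IsQuotientMap φ := hφcl.isQuotientMap hφc hφs
  have hφo : IsOpenMap φ := (MonoidHom.isOpenQuotientMap_of_isQuotientMap hφq).isOpenMap
  have hkerφ : φ.ker = ψ.ker := ψ.ker_rangeRestrict
  -- the image of the kernel
  let N' : Subgroup H := ψ.ker.map e.toMonoidHom
  have hN'c : IsCompact (N' : Set H) := by
    rw [Subgroup.coe_map]
    exact hker.image he
  haveI : N'.Normal := Subgroup.Normal.map inferInstance _ e.surjective
  haveI : IsClosed (N' : Set H) := hN'c.isClosed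
  haveI : T2Space (H ⧸ N') := by
    haveI := QuotientGroup.instT3Space N'
    infer_instance
  -- the homomorphism `H → B`
  let θ : H →* B := φ.comp e.symm.toMonoidHom
  have hθ : ∀ h, θ h = φ (e.symm h) := fun _ => rfl
  have hθs : Function.Surjective θ := hφs.comp e.symm.surjective
  have hθker : θ.ker = N' := by
    ext h
    rw [MonoidHom.mem_ker, hθ, ← MonoidHom.mem_ker, hkerφ]
    constructor
    · intro h1
      exact ⟨e.symm h, h1, by simp⟩
    · rintro ⟨g, hg, rfl⟩
      simpa using hg
  let E : H ⧸ θ.ker ≃* B := QuotientGroup.quotientKerEquivOfSurjective θ hθs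
  have hE : ∀ h : H, E (QuotientGroup.mk h) = θ h := fun _ => rfl
  haveI : T2Space (H ⧸ θ.ker) := by rw [hθker]; infer_instance
  have hEs : Continuous E.symm := by
    rw [hφq.continuous_iff]
    have : (E.symm : B → H ⧸ θ.ker) ∘ φ = fun g => QuotientGroup.mk (e g) := by
      ext g
      simp only [Function.comp_apply]
      rw [MulEquiv.symm_apply_eq, hE, hθ]
      simp
    rw [this]
    exact QuotientGroup.continuous_mk.comp he
  have hEc : Continuous E := by
    have := closed_subgroup hA B hB E.symm hEs
    simpa using this
  have hθc : Continuous θ := by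
    have : (θ : H → B) = fun h => E (QuotientGroup.mk h) := by
      ext h; rw [hE]
    rw [this]
    exact hEc.comp QuotientGroup.continuous_mk
  -- continuity of `e.symm` at `1`
  refine continuous_of_continuousAt_one e.symm.toMonoidHom ?_
  change ContinuousAt (e.symm : H → G) 1
  rw [ContinuousAt, map_one]
  intro U hU
  obtain ⟨V, hVo, hV1, hVV⟩ := exists_open_nhds_one_mul_subset hU
  have hW0 : (e '' ((ψ.ker : Set G) \ V))ᶜ ∈ 𝓝 (1 : H) := by
    have hc : IsCompact (e '' ((ψ.ker : Set G) \ V)) := (hker.diff hVo).image he
    refine hc.isClosed.isOpen_compl.mem_nhds ?_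
    rintro ⟨g, ⟨_, hg⟩, hg1⟩
    apply hg
    have : g = 1 := by
      rw [← map_one e] at hg1
      exact e.injective hg1
    rw [this]
    exact hV1
  obtain ⟨W, hWo, hW1, hWW⟩ : ∃ W : Set H, IsOpen W ∧ (1 : H) ∈ W ∧
      ∀ a ∈ W, ∀ b ∈ W, a⁻¹ * b ∈ (e '' ((ψ.ker : Set G) \ V))ᶜ := by
    have hcont : Tendsto (fun p : H × H => p.1⁻¹ * p.2) (𝓝 ((1 : H), (1 : H))) (𝓝 1) := by
      have : Continuous (fun p : H × H => p.1⁻¹ * p.2) := by fun_prop
      have := this.tendsto ((1 : H), (1 : H))
      simpa using this
    have h1 := hcont hW0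
    rw [mem_map, nhds_prod_eq, mem_prod_iff] at h1
    obtain ⟨t1, ht1, t2, ht2, hsub⟩ := h1
    obtain ⟨W, hWs, hWo, hW1⟩ := mem_nhds_iff.1 (inter_mem ht1 ht2)
    refine ⟨W, hWo, hW1, fun a ha b hb => ?_⟩
    exact hsub (mk_mem_prod (hWs ha).1 (hWs hb).2)
  have hV1' : IsOpen (V ∩ e ⁻¹' W) := hVo.inter (hWo.preimage he)
  have hmem : θ ⁻¹' (φ '' (V ∩ e ⁻¹' W)) ∈ 𝓝 (1 : H) := by
    refine ((hφo _ hV1').preimage hθc).mem_nhds ?_
    refine ⟨1, ⟨hV1, by simpa using hW1⟩, ?_⟩
    simp
  have hWn : W ∈ 𝓝 (1 : H) := hWo.mem_nhds hW1
  rw [mem_map]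
  refine mem_of_superset (inter_mem hWn hmem) ?_
  rintro h ⟨hhW, v, ⟨hvV, hvW⟩, hv⟩
  rw [hθ] at hv
  have hn : v⁻¹ * e.symm h ∈ ψ.ker := by
    rw [← hkerφ, MonoidHom.mem_ker, map_mul, map_inv, hv, inv_mul_cancel]
  have hnV : v⁻¹ * e.symm h ∈ V := by
    by_contra hcon
    have h1 := hWW (e v) hvW h hhW
    apply h1
    exact ⟨v⁻¹ * e.symm h, ⟨hn, hcon⟩, by simp⟩
  have := hVV (mul_mem_mul hvV hnV)
  simpa using this

/-- The restriction of the first projection to a closed subgroup of `A × K`. -/
theorem fst_closed {A : Type u} {K : Type v} [CommGroup A] [TopologicalSpace A]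
    [Group K] [TopologicalSpace K] [CompactSpace K]
    (H : Subgroup (A × K)) (hH : IsClosed (H : Set (A × K))) :
    IsClosedMap ((MonoidHom.fst A K).comp H.subtype) := by
  have h1 : IsClosedMap (Prod.fst : A × K → A) := isClosedMap_fst_of_compactSpace
  exact h1.comp hH.isClosedMap_subtype_val

theorem ker_compact {A : Type u} {K : Type v} [CommGroup A] [TopologicalSpace A] [T2Space A]
    [Group K] [TopologicalSpace K] [CompactSpace K]
    (H : Subgroup (A × K)) (hH : IsClosed (H : Set (A × K))) :
    IsCompact ((((MonoidHom.fst A K).comp H.subtype).ker : Subgroup H) : Set H) := by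
  have h2 : IsClosedEmbedding (Subtype.val : H → A × K) := hH.isClosedEmbedding_subtypeVal
  have h3 : ((((MonoidHom.fst A K).comp H.subtype).ker : Subgroup H) : Set H) =
      Subtype.val ⁻¹' (({1} : Set A) ×ˢ (univ : Set K)) := by
    ext x
    simp only [SetLike.mem_coe, MonoidHom.mem_ker, mem_preimage, mem_prod, mem_singleton_iff,
      mem_univ, and_true]
    rfl
  rw [h3]
  exact h2.isCompact_preimage (isCompact_singleton.prod isCompact_univ)

/-- Answer to Q1. -/
theorem cminimal {A : Type u} {K : Type v} [CommGroup A] [TopologicalSpace A]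
    [Group K] [TopologicalSpace K] [IsTopologicalGroup K] [T2Space K] [CompactSpace K]
    (hA : IsMinimalGroup A) : IsCMinimalGroup (A × K) := by
  haveI := hA.isTopologicalGroup
  haveI := hA.t2
  intro H hH
  exact minimal_of_closed_hom hA ((MonoidHom.fst A K).comp H.subtype)
    (continuous_fst.comp continuous_subtype_val) (fst_closed H hH) (ker_compact H hH)

/-- Answer to Q2. -/
theorem ctotallyMinimal {A : Type u} {K : Type v} [CommGroup A] [TopologicalSpace A]
    [Group K] [TopologicalSpace K] [IsTopologicalGroup K] [T2Space K] [CompactSpace K]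
    (hA : IsTotallyMinimalGroup A) : IsCTotallyMinimalGroup (A × K) := by
  haveI := hA.isTopologicalGroup
  haveI := hA.t2
  intro H hH
  refine ⟨inferInstance, inferInstance, ?_⟩
  intro L _ hL
  let φ : H →* A := (MonoidHom.fst A K).comp H.subtype
  have hφc : Continuous φ := continuous_fst.comp continuous_subtype_val
  have hφcl : IsClosedMap φ := fst_closed H hH
  have hφk : IsCompact (φ.ker : Set H) := ker_compact H hH
  let C : Subgroup A := L.map φ
  have hC : IsClosed (C : Set A) := by
    rw [Subgroup.coe_map]
    exact hφcl _ hL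
  haveI := hL
  haveI := hC
  haveI : T2Space (H ⧸ L) := by
    haveI := QuotientGroup.instT3Space L
    infer_instance
  let ψ : H ⧸ L →* A ⧸ C := QuotientGroup.map L C φ (Subgroup.le_comap_map φ L)
  have hψ : ∀ h : H, ψ (QuotientGroup.mk h) = QuotientGroup.mk (φ h) := fun _ => rfl
  have hψc : Continuous ψ := by
    rw [(QuotientGroup.isQuotientMap_mk L).continuous_iff]
    exact QuotientGroup.continuous_mk.comp hφc
  refine minimal_of_closed_hom (hA.minimal C hC) ψ hψc ?_ ?_
  · intro s hs
    rw [← (QuotientGroup.isQuotientMap_mk C).isClosed_preimage]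
    have : QuotientGroup.mk ⁻¹' (ψ '' s) = φ '' (QuotientGroup.mk ⁻¹' s) := by
      ext a
      constructor
      · rintro ⟨x, hx, hxa⟩
        obtain ⟨h, rfl⟩ := QuotientGroup.mk_surjective x
        rw [hψ, QuotientGroup.eq] at hxa
        obtain ⟨l, hl, hl'⟩ := hxa
        refine ⟨h * l, ?_, ?_⟩
        · change QuotientGroup.mk (h * l) ∈ s
          rw [QuotientGroup.mk_mul_of_mem h hl]
          exact hx
        · rw [map_mul, hl']
          simp
      · rintro ⟨h, hh, rfl⟩
        exact ⟨QuotientGroup.mk h, hh, rfl⟩
    rw [this]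
    exact hφcl _ (hs.preimage QuotientGroup.continuous_mk)
  · have : (ψ.ker : Set (H ⧸ L)) = QuotientGroup.mk '' (φ.ker : Set H) := by
      ext x
      constructor
      · intro hx
        obtain ⟨h, rfl⟩ := QuotientGroup.mk_surjective x
        have hx' : ψ (QuotientGroup.mk h) = 1 := hx
        rw [hψ, QuotientGroup.eq_one_iff] at hx'
        obtain ⟨l, hl, hl'⟩ := hx'
        refine ⟨h * l⁻¹, ?_, ?_⟩
        · change φ (h * l⁻¹) = 1
          rw [map_mul, map_inv, hl', mul_inv_cancel]
        · exact QuotientGroup.mk_mul_of_mem h (L.inv_mem hl)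
      · rintro ⟨h, hh, rfl⟩
        change ψ (QuotientGroup.mk h) = 1
        have : φ h = 1 := hh
        rw [hψ, this]
        rfl
    rw [this]
    exact hφk.image QuotientGroup.continuous_mk

end Pool.Agent.J4.H93.MinGrp
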